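import Pool.Agent.Y164.SZ.Stm2

/-!
The equations satisfied by the locally soluble classes (project SZ): proofs of `S_E1` and `S_E2`
from `S_REP`.
-/

set_option autoImplicit false
set_option linter.all false

open Polynomial IsDedekindDomain
open scoped Classical

namespace Pool.Agent.Y43.SZ2

open Finset
open Pool.Agent.Y164.SZ
open Pool.Agent.Y713.SE (hp Pw)
open Pool.Agent.Y164.PS (Fam)

section
variable {ℓ : ℕ} [hℓ : Fact ℓ.Prime]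
variable {k K : Type} [Field k] [Fintype k] [DecidableEq k] [Field K] [Algebra k[X] K]
  [IsFractionRing k[X] K]
variable {n : ℕ} {a : Fin n → k[X]} {N : ℕ} (H : Geo ℓ a N)
variable {ι : Type} [Fintype ι] {T : ι → k[X]}

/-- the combined exponents -/
noncomputable def ex (p q : Tau a → Fin n) (w : V ℓ (SW ℓ n) ι (Tau a)) (mv : Fin n → ℕ) (i : Fin n) :
    ι ⊕ Tau a → ZMod ℓ :=
  fun y => uu p q w i y + Sum.elim (fun _ : ι => - (mv i : ZMod ℓ))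
    (fun s => - (tf ℓ (p s) (q s) i * ((mv (p s) : ZMod ℓ) - mv (q s)))) y

include H in
/-- the conditions at a prime of the family -/
theorem loc_cond (hREP : S_REP) (hR : Fam (RR a T)) (D0 : Y713.SE.Dat ℓ n K)
    (hδ : D0.δ = algebraMap k[X] K (∏ i, T i)) (he : ∀ i, D0.e i = algebraMap k[X] K (a i))
    (w : V ℓ (SW ℓ n) ι (Tau a)) (x0 : SW ℓ n) (mi : Fin n → K)
    (hrep : ∀ i, IsRep ℓ (RR a T) (mi i) (x0.1 i) (uu H.p H.q w i))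
    (y : ι ⊕ Tau a) (mv : Fin n → ℕ) (i j : Fin n)
    (hloc : ∃ z : (hp (RR a T y) (hR.irr y)).adicCompletion K,
      algebraMap K _ (mi i * Tm D0 mv i) = z ^ ℓ * algebraMap K _ (mi j * Tm D0 mv j)) :
    ex H.p H.q w mv i y + - ex H.p H.q w mv j y = 0 ∧
      ∑ x, (ex H.p H.q w mv i x + - ex H.p H.q w mv j x) * L ℓ (RR a T x) (RR a T y) +
        ((RR a T y).natDegree : ZMod ℓ) *
        ((x0.1 i + H.comb.ksf (fun j => (mv j : ZMod ℓ)) i) +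
          - (x0.1 j + H.comb.ksf (fun j => (mv j : ZMod ℓ)) j)) = 0 := by
  have hT := isRep_Tm (K := K) H hR D0 hδ he mv
  have hi := (hrep i).mul H.S (hT i)
  have hj := (hrep j).mul H.S (hT j)
  have h1 := hi.mul H.S (hj.inv H.S hR)
  have hB : mi j * Tm D0 mv j ≠ 0 := hj.ne hR
  refine (hREP ℓ k K (ι ⊕ Tau a) (RR a T) hR H.S).2.1 _ _ _ h1 y ?_
  obtain ⟨z, hz⟩ := hloc
  refine ⟨z, ?_⟩
  have hB' : algebraMap K ((hp (RR a T y) (hR.irr y)).adicCompletion K) (mi j * Tm D0 mv j) ≠ 0 :=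
    (_root_.map_ne_zero _).2 hB
  rw [map_mul, map_inv₀, hz, mul_assoc, mul_inv_cancel₀ hB', mul_one]

theorem E1_coord (σ : Tau a → ZMod ℓ) (A : ι → ι → ZMod ℓ) (B : ι → Tau a → ZMod ℓ) (d : ι → ZMod ℓ)
    (w : V ℓ (SW ℓ n) ι (Tau a)) (x0 : SW ℓ n) (x : ι) (i : Fin n) :
    (E1 (H.dat σ) A B d w x0 x).1 i =
      ∑ y, A x y * ((w.1 y).1 i - (w.1 x).1 i) +
      ∑ s, B x s * (w.2 s * tf ℓ (H.p s) (H.q s) i -
        ((w.1 x).1 (H.p s) - (w.1 x).1 (H.q s)) * tf ℓ (H.p s) (H.q s) i) +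
      d x * (H.comb.ksf (w.1 x).1 i + x0.1 i) := by
  rw [E1]
  have h1 : ∀ (f g h : SW ℓ n), (f + g + h).1 i = f.1 i + g.1 i + h.1 i := fun _ _ _ => rfl
  rw [h1]
  congr 1
  congr 1
  · rw [Submodule.coe_sum, Finset.sum_apply]
    rfl
  · rw [Submodule.coe_sum, Finset.sum_apply]
    refine sum_congr rfl fun s _ => ?_
    show B x s * (w.2 s * tf ℓ (H.p s) (H.q s) i -
      dot ℓ n (w.1 x) (Tv ℓ (H.p s) (H.q s)) * tf ℓ (H.p s) (H.q s) i) = _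
    rw [dot_Tv]

end

theorem e1 (hREP : S_REP) : S_E1 := by
  intro ℓ hℓ k K _ _ _ _ _ _ n a N H ι _ T hR D0 hδ he σ w x0 mi hrep x mv hloc
  have key := fun i j => loc_cond H hREP hR D0 hδ he w x0 mi hrep (Sum.inl x) mv i j (hloc i j)
  have hmv : ∀ i j, (mv i : ZMod ℓ) - mv j = (w.1 x).1 i - (w.1 x).1 j := by
    intro i j
    have h1 := (key i j).1
    have h2 : ((w.1 x).1 i + - (mv i : ZMod ℓ)) + - ((w.1 x).1 j + - (mv j : ZMod ℓ)) = 0 := h1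
    linear_combination -h2
  have hks : ∀ i, H.comb.ksf (fun j => (mv j : ZMod ℓ)) i = H.comb.ksf (w.1 x).1 i := by
    intro i
    refine sum_congr rfl fun l _ => ?_
    show ((mv l : ZMod ℓ) - mv i) * _ = _
    rw [hmv]
  apply Subtype.ext
  refine const_zero H.hn _ (E1 (H.dat σ) (AT ℓ T) (BT ℓ (QQ a) T)
    (fun i => ((T i).natDegree : ZMod ℓ)) w x0 x).2 ?_
  intro i j
  rw [E1_coord, E1_coord]
  have h1 := (key i j).2
  rw [Fintype.sum_sum_type] at h1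
  have e1 : ∑ y, AT ℓ T x y * ((w.1 y).1 i - (w.1 x).1 i) -
      ∑ y, AT ℓ T x y * ((w.1 y).1 j - (w.1 x).1 j) =
      ∑ y : ι, (ex H.p H.q w mv i (Sum.inl y) + - ex H.p H.q w mv j (Sum.inl y)) *
        L ℓ (RR a T (Sum.inl y)) (RR a T (Sum.inl x)) := by
    rw [← sum_sub_distrib]
    refine sum_congr rfl fun y _ => ?_
    show AT ℓ T x y * ((w.1 y).1 i - (w.1 x).1 i) - AT ℓ T x y * ((w.1 y).1 j - (w.1 x).1 j) =
      (((w.1 y).1 i + - (mv i : ZMod ℓ)) + - ((w.1 y).1 j + - (mv j : ZMod ℓ))) * L ℓ (T y) (T x)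
    have h2 : AT ℓ T x y = L ℓ (T y) (T x) := H.S.L_comm _ _
    rw [h2]
    linear_combination L ℓ (T y) (T x) * hmv i j
  have e2' : ∑ s, BT ℓ (QQ a) T x s * (w.2 s * tf ℓ (H.p s) (H.q s) i -
        ((w.1 x).1 (H.p s) - (w.1 x).1 (H.q s)) * tf ℓ (H.p s) (H.q s) i) -
      ∑ s, BT ℓ (QQ a) T x s * (w.2 s * tf ℓ (H.p s) (H.q s) j -
        ((w.1 x).1 (H.p s) - (w.1 x).1 (H.q s)) * tf ℓ (H.p s) (H.q s) j) =
      ∑ s : Tau a, (ex H.p H.q w mv i (Sum.inr s) + - ex H.p H.q w mv j (Sum.inr s)) *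
        L ℓ (RR a T (Sum.inr s)) (RR a T (Sum.inl x)) := by
    rw [← sum_sub_distrib]
    refine sum_congr rfl fun s _ => ?_
    show _ = ((w.2 s * tf ℓ (H.p s) (H.q s) i +
        - (tf ℓ (H.p s) (H.q s) i * ((mv (H.p s) : ZMod ℓ) - mv (H.q s)))) +
      - (w.2 s * tf ℓ (H.p s) (H.q s) j +
        - (tf ℓ (H.p s) (H.q s) j * ((mv (H.p s) : ZMod ℓ) - mv (H.q s))))) *
      L ℓ (QQ a s) (T x)
    have h2 : BT ℓ (QQ a) T x s = L ℓ (QQ a s) (T x) := H.S.L_comm _ _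
    rw [h2, hmv]
    ring
  rw [← e1, ← e2', hks, hks] at h1
  have h1' : _ := h1
  have hd : ((RR a T (Sum.inl x)).natDegree : ZMod ℓ) = ((T x).natDegree : ZMod ℓ) := rfl
  rw [hd] at h1
  rw [← sub_eq_zero]
  rw [← h1]
  ring

theorem e2 (hREP : S_REP) : S_E2 := by
  intro ℓ hℓ k K _ _ _ _ _ _ n a N H ι _ T hR D0 hδ he σ hcl w x0 mi hrep s r hr hloc
  obtain ⟨mv, hmv⟩ : ∃ mv : Fin n → ℕ, mv = fun l => if l = H.q s then r else 0 := ⟨_, rfl⟩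
  rw [← hmv] at hloc
  have hij : H.p s ≠ H.q s := ne_of_lt (H.lt s)
  have h3 := (loc_cond H hREP hR D0 hδ he w x0 mi hrep (Sum.inr s) mv (H.p s) (H.q s) hloc).2
  rw [Fintype.sum_sum_type] at h3
  have hmi : (mv (H.p s) : ZMod ℓ) = 0 := by
    rw [hmv]
    simp only [if_neg hij, Nat.cast_zero]
  have hmj : (mv (H.q s) : ZMod ℓ) = - w.2 s := by
    rw [hmv]
    simp only [if_true]
    rw [hr, neg_neg]
  have h4 : ∑ s', L ℓ (QQ a s) (QQ a s') * (((mv (H.p s') : ZMod ℓ) - mv (H.q s')) *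
      (tf ℓ (H.p s') (H.q s') (H.p s) - tf ℓ (H.p s') (H.q s') (H.q s))) -
      ((QQ a s).natDegree : ZMod ℓ) * (H.comb.ksf (fun l => (mv l : ZMod ℓ)) (H.p s) -
        H.comb.ksf (fun l => (mv l : ZMod ℓ)) (H.q s)) =
      H.comb.gg s * ((mv (H.p s) : ZMod ℓ) - mv (H.q s)) :=
    (H.hC ℓ n (Tau a) H.comb).2.2.2.1 s (fun l => (mv l : ZMod ℓ))
  have e1 : ∑ y : ι, (ex H.p H.q w mv (H.p s) (Sum.inl y) + - ex H.p H.q w mv (H.q s) (Sum.inl y)) *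
        L ℓ (RR a T (Sum.inl y)) (RR a T (Sum.inr s)) =
      ∑ y, BT ℓ (QQ a) T y s * ((w.1 y).1 (H.p s) - (w.1 y).1 (H.q s)) -
        w.2 s * ∑ y, BT ℓ (QQ a) T y s := by
    rw [mul_sum, ← sum_sub_distrib]
    refine sum_congr rfl fun y _ => ?_
    show (((w.1 y).1 (H.p s) + - (mv (H.p s) : ZMod ℓ)) +
      - ((w.1 y).1 (H.q s) + - (mv (H.q s) : ZMod ℓ))) * L ℓ (T y) (QQ a s) =
      L ℓ (T y) (QQ a s) * ((w.1 y).1 (H.p s) - (w.1 y).1 (H.q s)) - w.2 s * L ℓ (T y) (QQ a s)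
    rw [hmi, hmj]
    ring
  have e2' : ∑ s' : Tau a, (ex H.p H.q w mv (H.p s) (Sum.inr s') +
        - ex H.p H.q w mv (H.q s) (Sum.inr s')) *
        L ℓ (RR a T (Sum.inr s')) (RR a T (Sum.inr s)) =
      ∑ s', L ℓ (QQ a s) (QQ a s') * (w.2 s' *
        (tf ℓ (H.p s') (H.q s') (H.p s) - tf ℓ (H.p s') (H.q s') (H.q s))) -
      ∑ s', L ℓ (QQ a s) (QQ a s') * (((mv (H.p s') : ZMod ℓ) - mv (H.q s')) *
        (tf ℓ (H.p s') (H.q s') (H.p s) - tf ℓ (H.p s') (H.q s') (H.q s))) := by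
    rw [← sum_sub_distrib]
    refine sum_congr rfl fun s' _ => ?_
    show ((w.2 s' * tf ℓ (H.p s') (H.q s') (H.p s) +
        - (tf ℓ (H.p s') (H.q s') (H.p s) * ((mv (H.p s') : ZMod ℓ) - mv (H.q s')))) +
      - (w.2 s' * tf ℓ (H.p s') (H.q s') (H.q s) +
        - (tf ℓ (H.p s') (H.q s') (H.q s) * ((mv (H.p s') : ZMod ℓ) - mv (H.q s'))))) *
      L ℓ (QQ a s') (QQ a s) = _
    rw [H.S.L_comm (QQ a s') (QQ a s)]
    ring
  rw [e1, e2'] at h3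
  have h5 : E2 (H.dat σ) (BT ℓ (QQ a) T) w x0 s =
      σ s * w.2 s + ∑ y, BT ℓ (QQ a) T y s * ((w.1 y).1 (H.p s) - (w.1 y).1 (H.q s)) +
      ∑ s', L ℓ (QQ a s) (QQ a s') * (w.2 s' *
        (tf ℓ (H.p s') (H.q s') (H.p s) - tf ℓ (H.p s') (H.q s') (H.q s))) +
      ((QQ a s).natDegree : ZMod ℓ) * (x0.1 (H.p s) - x0.1 (H.q s)) := by
    have g1 : E2 (H.dat σ) (BT ℓ (QQ a) T) w x0 s =
      σ s * w.2 s + ∑ y, BT ℓ (QQ a) T y s * dot ℓ n (w.1 y) (Tv ℓ (H.p s) (H.q s)) +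
      ∑ s', L ℓ (QQ a s) (QQ a s') * (w.2 s' *
        dot ℓ n (Tv ℓ (H.p s') (H.q s')) (Tv ℓ (H.p s) (H.q s))) +
      ((QQ a s).natDegree : ZMod ℓ) * dot ℓ n x0 (Tv ℓ (H.p s) (H.q s)) := rfl
    rw [g1]
    simp only [dot_Tv]
    rfl
  rw [h5]
  have h6 : σ s + ∑ i, BT ℓ (QQ a) T i s + H.comb.gg s = 0 := hcl s
  rw [hmi, hmj] at h4
  have hd : ((RR a T (Sum.inr s)).natDegree : ZMod ℓ) = ((QQ a s).natDegree : ZMod ℓ) := rfl
  rw [hd] at h3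
  linear_combination h3 + h4 + w.2 s * h6

end Pool.Agent.Y43.SZ2
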